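import Mathlib
import Pool.Agent.Helper974.HypMain
import Pool.Agent.Helper974.HypExample

namespace Pool.Agent.Results.MP_a322a8_mp.LiouvilleDarboux

open Filter Topology
open Pool.Agent.Helper974.JetGerm Pool.Agent.Helper974.Hyp

/-- The definition is not vacuous: the Liouville equation `u_xy = exp u` is of Liouville type. -/
theorem liouville_equation (p : Jet ℝ 1) : LiouvilleType liouF p := liouvilleType_liouF p

/-- **Every system of Liouville type is Darboux integrable.** Let `𝕜` be the real or the complex
field, let `F` be analytic at the base point of the jet `p` and let the system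
`u_xy = F(x, y, u, u_x, u_y)` be of Liouville type near `p`. Then there is an analytic function `h`
of finitely many jet variables, not identically zero near `p`, such that the system is Darboux
integrable near every jet `q` close to `p` with `h q ≠ 0`. -/
theorem result {𝕜 : Type} [RCLike 𝕜] {N : ℕ} (F : Arg 𝕜 N → Fin N → 𝕜) (p : Jet 𝕜 N)
    (hF : AnalyticAt 𝕜 F (base p)) (hL : LiouvilleType F p) :
    ∃ h : Jet 𝕜 N → 𝕜, IsFn p h ∧ ¬ h =ᶠ[𝓝 p] 0 ∧
      ∀ᶠ q in 𝓝 p, h q ≠ 0 → DarbouxIntegrable F q :=
  main hF hL

end Pool.Agent.Results.MP_a322a8_mp.LiouvilleDarboux
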